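import Pool.Agent.H.MP_d583b7_an.B

namespace Pool.Agent.Results.MP_d583b7_an.Q2No

open Pool.Agent.H.MP_d583b7_an Filter Topology
open scoped ENNReal

noncomputable abbrev L1 := lp (fun _ : ℕ => ℂ) 1
noncomputable abbrev Li := lp (fun _ : ℕ => ℂ) ∞

noncomputable def inc : L1 →L[ℂ] Li :=
  LinearMap.mkContinuous
    { toFun x := ⟨x, (lp.memℓp x).of_exponent_ge le_top⟩
      map_add' _ _ := rfl
      map_smul' _ _ := rfl } 1 fun x => by
    rw [one_mul]
    exact lp.norm_le_of_forall_le (norm_nonneg x) fun i => lp.norm_apply_le_norm one_ne_zero x i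

noncomputable def s0 : L1 × Li →L[ℂ] L1 × Li :=
  ContinuousLinearMap.inr ℂ L1 Li ∘L inc ∘L ContinuousLinearMap.fst ℂ L1 Li

lemma s0_apply (x : L1 × Li) : s0 x = (0, inc x.1) := rfl

lemma inc_single (n : ℕ) (t : ℂ) : inc (lp.single 1 n t) = lp.single ∞ n t := rfl

lemma ss1 : SS s0 := by
  intro M hM ε hε
  obtain ⟨u, h1, h2, h3⟩ := hump
    (fun n => lp.evalCLM ℂ (fun _ : ℕ => ℂ) 1 n ∘L ContinuousLinearMap.fst ℂ L1 Li) 1
    (fun u s => by
      have := lp.sum_rpow_le_norm_rpow (p := 1) (by simp) u.1 s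
      simp only [ENNReal.toReal_one, Real.rpow_one] at this
      rw [one_mul]
      exact this.trans (norm_fst_le u)) M hM ε hε
  refine ⟨u, h1, h2, ?_⟩
  rw [s0_apply, Prod.norm_mk, norm_zero, max_eq_right (norm_nonneg _)]
  exact lp.norm_le_of_forall_le (by positivity) h3

lemma ss2 : SS (adj s0) := by
  intro M hM ε hε
  obtain ⟨f, h1, h2, h3⟩ := hump (fun n => ev ((0, lp.single ∞ n 1) : L1 × Li)) 1
    (fun f s => by
      choose θ t1 t2 using fun n => Complex.exists_norm_eq_mul_self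
        (f ((0, lp.single ∞ n 1) : L1 × Li))
      have e : ((∑ n ∈ s, ‖f ((0, lp.single ∞ n 1) : L1 × Li)‖ : ℝ) : ℂ) =
          f (0, ∑ n ∈ s, θ n • lp.single ∞ n 1) := by
        change _ = (f ∘L ContinuousLinearMap.inr ℂ L1 Li) (∑ n ∈ s, θ n • lp.single ∞ n 1)
        rw [map_sum, Complex.ofReal_sum]
        exact Finset.sum_congr rfl fun n _ => by rw [map_smul, t2]; rfl
      have b : ‖((0, ∑ n ∈ s, θ n • lp.single ∞ n 1) : L1 × Li)‖ ≤ 1 := by
        rw [Prod.norm_mk, norm_zero, max_eq_right (norm_nonneg _)]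
        refine lp.norm_le_of_forall_le zero_le_one fun i => ?_
        simp only [lp.coeFn_sum, lp.coeFn_smul, Finset.sum_apply, Pi.smul_apply, lp.single_apply,
          Pi.single_apply, smul_ite, smul_zero, Finset.sum_ite_eq]
        split_ifs <;> simp [t1]
      have := f.le_opNorm_of_le b
      rw [← e, Complex.norm_real] at this
      rw [mul_comm]
      exact (le_abs_self _).trans this) M hM ε hε
  refine ⟨f, h1, h2, ?_⟩
  have hf : 0 ≤ ε * ‖f‖ := mul_nonneg hε.le (norm_nonneg f)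
  refine ContinuousLinearMap.opNorm_le_bound _ hf fun x => ?_
  set g := f ∘L ContinuousLinearMap.inr ℂ L1 Li ∘L inc
  have a1 := g.hasSum (lp.hasSum_single ENNReal.one_ne_top x.1)
  have a2 := (lp.hasSum_norm (p := 1) (by simp) x.1).mul_left (ε * ‖f‖)
  simp only [ENNReal.toReal_one, Real.rpow_one] at a2
  refine (a1.norm_le_of_bounded a2 fun n => ?_).trans (by gcongr; exact norm_fst_le x)
  have : (lp.single 1 n (x.1 n) : L1) = x.1 n • lp.single 1 n 1 := by
    rw [← lp.single_smul, smul_eq_mul, mul_one]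
  rw [this, map_smul, norm_smul, mul_comm]
  gcongr
  exact h3 n

lemma not_compact : ¬ IsCompactOperator s0 := by
  intro h
  obtain ⟨K, hK, h⟩ := IsCompactOperator.image_closedBall_subset_compact
    (f := s0.toLinearMap) h 1
  obtain ⟨y, -, φ, hφ, ht⟩ := hK.tendsto_subseq
    (x := fun n => s0 (lp.single 1 n 1, 0)) fun n => h ⟨_, by
      rw [mem_closedBall_zero_iff, Prod.norm_mk, lp.norm_single zero_lt_one]; simp, rfl⟩
  obtain ⟨N, hN⟩ := Metric.cauchySeq_iff'.1 ht.cauchySeq 1 one_pos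
  have a := hN (N + 1) (by omega)
  have b : φ N ≠ φ (N + 1) := (hφ (Nat.lt_succ_self N)).ne
  rw [dist_eq_norm] at a
  have c := (lp.norm_apply_le_norm ENNReal.top_ne_zero _ (φ N)).trans_lt
    ((norm_snd_le _).trans_lt a)
  simp only [Function.comp, s0_apply, inc_single, Prod.snd_sub, lp.coeFn_sub, Pi.sub_apply,
    lp.single_apply_self, lp.single_apply_ne _ _ _ b] at c
  simp at c

theorem main {X : Type} [NormedAddCommGroup X] [NormedSpace ℂ X] [CompleteSpace X]
    (s : X →L[ℂ] X) (h1 : SS s) (h2 : SS (adj s)) (h3 : ¬ IsCompactOperator s)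
    (a b : X) (f g : X →L[ℂ] ℂ) (e1 : g (s a) = 0) (e2 : g a = 0) (e3 : f a = 1) (e4 : g b = 1) :
    ∃ φ : (X →L[ℂ] X) →L[ℂ] (X →L[ℂ] X), Function.Bijective φ ∧ φ 1 = 1 ∧
      (∀ A, SemiFredholm (φ A) ↔ SemiFredholm A) ∧
      ∃ K : X →L[ℂ] X, IsCompactOperator K ∧ ¬ IsCompactOperator (φ K) := by
  set l : (X →L[ℂ] X) →L[ℂ] ℂ := g ∘L ContinuousLinearMap.apply ℂ X a
  have hl : ∀ A, l A = g (A a) := fun A => rfl
  have hs : ∀ c : ℂ, SS (adj (c • s)) := fun c => by
    rw [show adj (c • s) = c • adj s from map_smul _ c s]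
    exact h2.smul c
  set φ := ContinuousLinearMap.id ℂ (X →L[ℂ] X) + l.smulRight s
  have hφ : ∀ A, φ A = A + l A • s := fun A => rfl
  have l0 : l s = 0 := e1
  have hK : IsCompactOperator (f.smulRight b) :=
    (isCompactOperator_id (E := ℂ)).comp_clm f |>.clm_comp
      (ContinuousLinearMap.toSpanSingleton ℂ b)
  refine ⟨φ, ⟨(injective_iff_map_eq_zero _).2 fun A hA => ?_, fun A => ⟨A - l A • s, ?_⟩⟩, ?_,
    fun A => ⟨fun h => ?_, fun h => h.add (h1.smul _) (hs _)⟩, f.smulRight b, hK, fun h => h3 ?_⟩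
  · have := congrArg l hA
    rw [hφ, map_add, map_smul, l0, smul_zero, add_zero, map_zero] at this
    rwa [hφ, this, zero_smul, add_zero] at hA
  · rw [hφ, map_sub, map_smul, l0, smul_zero, sub_zero, sub_add_cancel]
  · rw [hφ, hl, one_apply_eq_self, e2, zero_smul, add_zero]
  · have := h.add (h1.smul (-l A)) (hs (-l A))
    rwa [hφ, neg_smul, add_neg_cancel_right] at this
  · have := h.sub hK
    rw [hφ, hl, ContinuousLinearMap.smulRight_apply, e3, one_smul, e4, one_smul] at this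
    have e : (⇑(f.smulRight b + s) - ⇑(f.smulRight b)) = s := by
      funext x; simp
    rwa [e] at this

def Counter (X : Type) [NormedAddCommGroup X] [NormedSpace ℂ X]
    (φ : (X →L[ℂ] X) → (X →L[ℂ] X)) : Prop :=
  (∀ A, SemiFredholm (φ A) ↔ SemiFredholm A) ∧
    ∃ K : X →L[ℂ] X, IsCompactOperator K ∧ ¬ IsCompactOperator (φ K)

theorem result : ∃ (X : Type) (_ : NormedAddCommGroup X) (_ : NormedSpace ℂ X)
    (_ : CompleteSpace X), ¬ FiniteDimensional ℂ X ∧
    ∃ φ : (X →L[ℂ] X) → (X →L[ℂ] X), IsLinearMap ℂ φ ∧ Continuous φ ∧ Function.Bijective φ ∧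
      φ 1 = 1 ∧ Counter X φ := by
  refine ⟨L1 × Li, inferInstance, inferInstance, inferInstance, fun h => not_compact ?_, ?_⟩
  · haveI : ProperSpace (L1 × Li) := FiniteDimensional.proper ℂ _
    exact isCompactOperator_of_locallyCompactSpace_dom s0
  · obtain ⟨φ, h1, h2, h3⟩ := main s0 ss1 ss2 not_compact (lp.single 1 0 1, 0) (lp.single 1 1 1, 0)
      (lp.evalCLM ℂ (fun _ : ℕ => ℂ) 1 0 ∘L ContinuousLinearMap.fst ℂ L1 Li)
      (lp.evalCLM ℂ (fun _ : ℕ => ℂ) 1 1 ∘L ContinuousLinearMap.fst ℂ L1 Li) rfl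
      (lp.single_apply_ne (E := fun _ : ℕ => ℂ) 1 0 1 one_ne_zero)
      (lp.single_apply_self (E := fun _ : ℕ => ℂ) 1 0 1)
      (lp.single_apply_self (E := fun _ : ℕ => ℂ) 1 1 1)
    exact ⟨φ, φ.toLinearMap.isLinear, φ.continuous, h1, h2, h3⟩

end Pool.Agent.Results.MP_d583b7_an.Q2No
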